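import Pool.Agent.Lib_helper65.CycNeg2

/-!
# MP_53dd33_an: the set `T_α`

`tc`, `InD`, `normSqD`, `Cyclic`, `IsPowBranch`, `LogPowInD` and `T` are defined in
`Pool/Agent/Lib_helper65/CycDefs.lean`, exactly as in the problem file.

We show `T_α = [(1 - α)/2, ∞) ∩ (0, ∞)` for every `α ∈ (0, 1]`: so `T_α = [(1 - α)/2, ∞)` for
`α < 1` and `T_1 = (0, ∞)`.

*Positive half* (`(1 - α)/2 ≤ t`).  Write `f = e^L`, `|g| = |L|^t`.
* The embedding of `D_β` in the Hardy space `H^{2/(1-β)}` shows that `|L|` is uniformly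
  integrable on circles, so that `L` is a Smirnov class logarithm.
* Comparing Jensen gaps (Aleman, Richter-Sundberg), truncations of outer functions in `D_α` stay
  in `D_α`; this gives `Q ∈ D_α` with `Re Q ≥ max (0, Re L)`.
* `B = (Q - L) + (1 + Q - L)^s + (1 + Q)^s` with `s < 1` near `1` has `Re B ≥ c (1 + |L|)^s`,
  so `e^{-εB} ∈ D_α` tends to `1` in `D_α` as `ε → 0`, and `e^{-B}` is a bounded multiple of `f`.
* Truncating again, `e^{-εB}` is in the closed invariant subspace generated by `e^{-B}`,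
  which lies in the one generated by `f`.

*Negative half* (`0 < t < (1 - α)/2`).  `f(z) = e^{-2} (1 - z)² exp (-2/(1 - z))` is in every
`D_α` with `α ≤ 1` and has a nontrivial singular inner factor, so it is not cyclic, while
`|log f|^t ~ |1 - z|^{-t}` and `(log f)^t ∈ D_α` exactly when `t < (1 - α)/2`.
-/

namespace Pool.Agent.Results.MP_53dd33_an.TAlpha

open Pool.Agent.Cyc65

/-- **The set `T_α`.**  For `0 < α ≤ 1` and `t > 0`: every `f ∈ D_α` with `(log f)^t ∈ D_α` is
cyclic in `D_α` if and only if `t ≥ (1 - α)/2`. -/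
theorem result (α : ℝ) (h0 : 0 < α) (h1 : α ≤ 1) :
    T α = {t : ℝ | 0 < t ∧ (1 - α) / 2 ≤ t} := by
  ext t
  constructor
  · rintro ⟨ht, h⟩
    refine ⟨ht, ?_⟩
    by_contra hlt
    obtain ⟨f, hf, hlog, hnc⟩ := negative_half h0.le h1 ht (not_le.1 hlt)
    exact hnc (h f hf hlog)
  · rintro ⟨ht, h⟩
    exact ⟨ht, fun f hf hlog => positive_half h0 h1 ht h hf hlog⟩

end Pool.Agent.Results.MP_53dd33_an.TAlpha
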